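import Pool.Agent.Helper96.T5b.MNs
import Pool.Agent.Helper44.T5b.Facts
import Pool.Agent.Helper54.T5b.KeysOf
import Pool.Agent.Helper63.T5b.Late
import Pool.Agent.Helper63.ET.MesoPrice

/-!
# T5b, line 7 (CaseTwo): the price of a label of the joint level

`C * Lam * (Ne' / Ne + 1 / q) ≤ exp (-SS m (sL m k l) / 10)` if the digits between the states are
not below the joint front of the lower state and the distance is short.
-/

set_option autoImplicit false

namespace Pool.Agent.Helper96.T5b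

open Finset Pool.Agent.Helper27.T4 Pool.Agent.Helper84.T5b Pool.Agent.Helper37.T5b
open Pool.Agent.Helper30.T5b hiding pz_prime pz_inj NL_pos
open Pool.Agent.Helper27.T5b hiding FF_pos dvd_cs cs_lt QQ_eq_NN c0_lt Jn_pos
open Pool.Agent.Helper5.ET hiding Key keysOf Mk AA Rp el
open Pool.Agent.Helper3.T5 Pool.Agent.Helper39.T5 Pool.Agent.Helper54.T5b
open Pool.Agent.Helper3.T5b
open Pool.Agent.Helper63.T5 (lam lam_gt lam_lt)
open Pool.Agent.Helper63.T5b (lg lg_ge lg_mono LateN exp_nat_lam)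

variable {m k l' l : ℕ}

/-! ## keys -/

theorem MNs_key_mem (hm : 0 < m) (hl : bb 0 ≤ mL m k l) {x : JF → ℕ} (hx : x ∈ XJ m k l)
    (i : JF) : (MNs m k l' l).key i x ∈ keysOf m k l :=
  J_mem (maskJ_lt (Bd_pos m k l) (XJ_lt hm hl hx))

theorem MNs_key_mem' (hm : 0 < m) (hl : bb 0 ≤ mL m k l') {x : JF → ℕ} (hx : x ∈ XJ m k l')
    (i : JF) : (MNs m k l' l).key' i x ∈ keysOf m k l' :=
  J_mem (maskJ_lt (Bd_pos m k l') (XJ_lt hm hl hx))

/-! ## the labels -/

theorem Jn_factor (m k s : ℕ) {x y : ℕ} (h : x ≤ y) : Jn m k s y = Jn m k s x *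
    ∏ i, pJ k s i ^ (aJ m k s y i - aJ m k s x i) := by
  unfold Jn NN
  rw [← Finset.prod_mul_distrib]
  refine Finset.prod_congr rfl (fun i _ => ?_)
  rw [← pow_add]
  congr 1
  have := Pool.Agent.Helper44.T5b.aJ_mono m k s i h
  omega

theorem MNs_Lam_sq (hc : l' ≤ ef m k l' 0) (hf : ef m k l' 0 ≤ l) :
    (MNs m k l' l).Lam ^ 2 * Jn m k (sL m k l) (ef m k l' 0) ≤ Jn m k (sL m k l) l := by
  rw [Jn_factor m k _ hf, mul_comm]
  apply Nat.mul_le_mul_left
  have h1 : (MNs m k l' l).Lam = ∏ i ∈ univ.erase (MNs m k l' l).R,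
      pJ k (sL m k l) i ^ ((aJ m k (sL m k l) l i + aJ m k (sL m k l) l' i -
        2 * aJ m k (sL m k l) (ef m k l' 0) i) / 2) := rfl
  rw [h1, ← Finset.prod_pow]
  refine le_trans (Finset.prod_le_prod' (fun i _ => ?_))
    (Finset.prod_le_prod_of_subset_of_one_le' (Finset.erase_subset _ _)
      (fun i _ _ => Nat.one_le_pow _ _ (pJ_prime k _ i).pos))
  rw [← pow_mul]
  apply Nat.pow_le_pow_right (pJ_prime k _ i).pos
  have h2 := Pool.Agent.Helper44.T5b.aJ_mono m k (sL m k l) i hc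
  have h3 := Pool.Agent.Helper44.T5b.aJ_mono m k (sL m k l) i hf
  omega

/-- **the price of a label** -/
theorem MNs_rho (hm : 0 < m) (h : Dat m k l' l)
    (hL : LateN m k (1000 * Real.log (2 * (2 * BP k) ^ 7)) l')
    (hk : kt m k ≤ era (mL m k l')) (h3 : bb 3 ≤ mL m k l') (hf : ef m k l' 0 < l)
    (hD : 20 * (l - l') < 7 * SS m (sL m k l)) :
    ((MNs m k l' l).C : ℝ) * (MNs m k l' l).Lam *
      (((MNs m k l' l).Ne' : ℝ) / (MNs m k l' l).Ne + 1 / (MNs m k l' l).q) ≤
      Real.exp (-((SS m (sL m k l) : ℝ) / 10)) := by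
  have hbb : bb 0 ≤ mL m k l := h.h0.trans (l1_mono _ h.ll.le)
  have hlam := lam_gt
  have hs : sL m k l' = sL m k l := h.ss
  set s := sL m k l with hsd
  set W : ℝ := (SS m s : ℝ) with hW
  have hW0 : 0 ≤ W := Nat.cast_nonneg _
  set A := lg m k l with hA
  set B := lg m k (ef m k l' 0) with hB
  set E := lg m k (ef m k l 0) with hE
  have hR : (0 : ℝ) < RT m k s := by exact_mod_cast RT_pos m k s
  have hbL : bL m k l' ≤ s := by
    have := rL_bounds hm k l'
    omega
  have hWb : SS m (bL m k l') ≤ SS m s := SS_mono m hbL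
  -- real forms of the moduli
  have j1 : (Jn m k s l : ℝ) = Real.exp A / RT m k s :=
    Pool.Agent.Helper63.T5b.Jn_real (cpl_self hm hbb)
  have j2 : (Jn m k s (ef m k l' 0) : ℝ) = Real.exp B / RT m k s := by
    have := Pool.Agent.Helper63.T5b.Jn_real (cpl_ef hm h.h0 0)
    rw [hs] at this
    exact this
  have j3 : (Jn m k s (ef m k l 0) : ℝ) = Real.exp E / RT m k s :=
    Pool.Agent.Helper63.T5b.Jn_real (cpl_ef hm hbb 0)
  -- the leads
  have e0 : ef m k l 0 = ez m s l := by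
    show ez m (sL m k l - 0) l = _
    rw [Nat.sub_zero]
  have l1 : 0.0107 * (W * lam) ≤ E - A := by
    have := (hL.lead hm h.ll.le hbL).1
    rw [hE, e0]
    exact this
  have hBA : B ≤ A := lg_mono m k hf.le
  -- `Lam`
  have q1 : ((MNs m k l' l).Lam : ℝ) ^ 2 ≤ Real.exp (A - B) := by
    have h1 : ((MNs m k l' l).Lam : ℝ) ^ 2 * Jn m k s (ef m k l' 0) ≤ Jn m k s l := by
      exact_mod_cast MNs_Lam_sq h.le' hf.le
    rw [j1, j2, mul_div_assoc', div_le_div_iff_of_pos_right hR] at h1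
    rw [Real.exp_sub, le_div_iff₀ (Real.exp_pos _)]
    exact h1
  have q2 : ((MNs m k l' l).Lam : ℝ) ≤ Real.exp ((A - B) / 2) := by
    have h1 : Real.exp ((A - B) / 2) ^ 2 = Real.exp (A - B) := by
      rw [← Real.exp_nat_mul]
      congr 1
      push_cast
      ring
    rw [← h1] at q1
    exact le_of_sq_le_sq q1 (Real.exp_pos _).le
  -- the quotient of the fronts
  have q3 : ((MNs m k l' l).Ne' : ℝ) / (MNs m k l' l).Ne = Real.exp (B - E) := by
    have h1 : (MNs m k l' l).Ne' = Jn m k s (ef m k l' 0) := rfl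
    have h2 : (MNs m k l' l).Ne = Jn m k s (ef m k l 0) := rfl
    rw [h1, h2, j2, j3, div_div_div_cancel_right₀ hR.ne', Real.exp_sub]
  -- the fresh modulus
  have q4 : Real.exp (W * lam) ≤ (MNs m k l' l).q := by
    rw [MNs_q h]
    have c1 := Pool.Agent.Helper63.ET.cnt_ge h3 (fam (era (mL m k l') + 2))
    have c2 := SS_sv_succ_le' hm h.h0 hk
    have c3 : sv m k (mL m k l') = s := hs
    rw [c3] at c2
    have c4 := SS_succ_ge hm s
    have c5 : 11 * SS m s ≤ SS m (s + 1) :=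
      (Nat.mul_le_mul_right _ (by norm_num)).trans c4
    have c6 : SS m s ≤ cnt (fam (era (mL m k l') + 2)) (mL m k l') := by omega
    rw [exp_nat_lam]
    calc ((10 : ℝ) ^ 6) ^ SS m s ≤ (pr (fam (era (mL m k l') + 2)) : ℝ) ^ SS m s := by
          apply pow_le_pow_left₀ (by positivity)
          exact_mod_cast million_le_pr _
      _ ≤ (pr (fam (era (mL m k l') + 2)) : ℝ) ^
          cnt (fam (era (mL m k l') + 2)) (mL m k l') := by
          apply pow_le_pow_right₀ _ c6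
          have : (1 : ℕ) ≤ pr (fam (era (mL m k l') + 2)) := (pr_prime _).pos
          exact_mod_cast this
      _ = _ := by push_cast; rfl
  have hq0 : (0 : ℝ) < (MNs m k l' l).q := (Real.exp_pos _).trans_le q4
  have q5 : A - B ≤ 0.3515 * (W * lam) := by
    have h1 := hL.lg_le le_rfl h.ll.le hWb
    have h2 : lg m k l' ≤ B := lg_mono m k h.le'
    have h4 : 20 * ((l - l' : ℕ) : ℝ) ≤ 7 * W := by
      rw [hW]
      exact_mod_cast hD.le
    have h5 : (10001 / 10000 * ((l - l' : ℕ) : ℝ) + W / 10000) * lam ≤ (0.3515 * W) * lam := by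
      apply mul_le_mul_of_nonneg_right _ (by linarith)
      linarith
    have h6 : (0.3515 * W) * lam = 0.3515 * (W * lam) := by ring
    linarith
  have hWl : 0 ≤ W * lam := mul_nonneg hW0 (by linarith)
  -- the two terms
  have t1 : ((MNs m k l' l).Lam : ℝ) * (((MNs m k l' l).Ne' : ℝ) / (MNs m k l' l).Ne) ≤
      Real.exp (-(0.0107 * (W * lam))) := by
    rw [q3]
    calc ((MNs m k l' l).Lam : ℝ) * Real.exp (B - E)
        ≤ Real.exp ((A - B) / 2) * Real.exp (B - E) :=
          mul_le_mul_of_nonneg_right q2 (Real.exp_pos _).le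
      _ = Real.exp ((A - B) / 2 + (B - E)) := (Real.exp_add _ _).symm
      _ ≤ _ := Real.exp_le_exp.2 (by linarith)
  have t2 : ((MNs m k l' l).Lam : ℝ) * (1 / (MNs m k l' l).q) ≤
      Real.exp (-(0.0107 * (W * lam))) := by
    have d1 : (1 : ℝ) / (MNs m k l' l).q ≤ Real.exp (-(W * lam)) := by
      rw [Real.exp_neg, one_div]
      exact inv_anti₀ (Real.exp_pos _) q4
    calc ((MNs m k l' l).Lam : ℝ) * (1 / (MNs m k l' l).q)
        ≤ Real.exp ((A - B) / 2) * Real.exp (-(W * lam)) :=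
          mul_le_mul q2 d1 (by positivity) (Real.exp_pos _).le
      _ = Real.exp ((A - B) / 2 + -(W * lam)) := (Real.exp_add _ _).symm
      _ ≤ _ := Real.exp_le_exp.2 (by linarith)
  -- the constant
  have hBP : (1 : ℝ) ≤ BP k := by exact_mod_cast BP_pos k
  have hC1 : (1 : ℝ) ≤ 2 * (2 * (BP k : ℝ)) ^ 7 := by
    have : (1 : ℝ) ≤ (2 * (BP k : ℝ)) ^ 7 := one_le_pow₀ (by linarith)
    linarith
  have c1 : ((MNs m k l' l).C : ℝ) ≤ (2 * (BP k : ℝ)) ^ 7 := by
    exact_mod_cast MNs_C_le m k l' l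
  have c2 : 2 * (2 * (BP k : ℝ)) ^ 7 ≤ Real.exp (W / 1000) := by
    have h1 := hL.c
    have h2 : (SS m (bL m k l') : ℝ) ≤ W := by
      rw [hW]
      exact_mod_cast hWb
    rw [← Real.exp_log (show (0 : ℝ) < 2 * (2 * (BP k : ℝ)) ^ 7 by linarith)]
    apply Real.exp_le_exp.2
    linarith
  have hLam0 : (0 : ℝ) ≤ (MNs m k l' l).Lam := Nat.cast_nonneg _
  calc ((MNs m k l' l).C : ℝ) * (MNs m k l' l).Lam *
      (((MNs m k l' l).Ne' : ℝ) / (MNs m k l' l).Ne + 1 / (MNs m k l' l).q)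
      = (MNs m k l' l).C * ((MNs m k l' l).Lam *
        (((MNs m k l' l).Ne' : ℝ) / (MNs m k l' l).Ne) +
          (MNs m k l' l).Lam * (1 / (MNs m k l' l).q)) := by ring
    _ ≤ (2 * (BP k : ℝ)) ^ 7 * (Real.exp (-(0.0107 * (W * lam))) +
          Real.exp (-(0.0107 * (W * lam)))) := by
        apply mul_le_mul c1 (add_le_add t1 t2) _ (by positivity)
        positivity
    _ = 2 * (2 * (BP k : ℝ)) ^ 7 * Real.exp (-(0.0107 * (W * lam))) := by ring
    _ ≤ Real.exp (W / 1000) * Real.exp (-(0.0107 * (W * lam))) :=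
        mul_le_mul_of_nonneg_right c2 (Real.exp_pos _).le
    _ = Real.exp (W / 1000 + -(0.0107 * (W * lam))) := (Real.exp_add _ _).symm
    _ ≤ _ := by
        apply Real.exp_le_exp.2
        nlinarith

end Pool.Agent.Helper96.T5b
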